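import Pool.Agent.H741.EL.Stm
import Pool.Graph.R_seed8.Y508.FP.Cro
import Pool.Graph.R_seed8.Y508.FP.Poly
import Pool.Graph.R_seed8.Y508.FP.Fn

set_option autoImplicit false

/-!
# Project EL (helper741), part CRO (helper52): Crofton inequality for the hull of a closed curve
-/

open MeasureTheory Metric Set Filter Topology

namespace Pool.Agent.H52.EL.CRO

open Pool.Agent.Y508
open Pool.Agent.H741.EL

theorem t_CRO : S_CRO := by
  intro γ hγ
  by_cases htop : Pool.Agent.H741.EL.len γ = ⊤
  · rw [htop]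
    exact le_top
  have hK : IsCompact (γ '' Icc 0 1) := isCompact_Icc.image_of_continuousOn hγ.cont
  have hne : (γ '' Icc 0 1).Nonempty := ⟨γ 0, mem_image_of_mem _ ⟨le_rfl, zero_le_one⟩⟩
  have h1 : W (convexHull ℝ (γ '' Icc 0 1)) = W (γ '' Icc 0 1) := by
    unfold W
    refine intervalIntegral.integral_congr fun θ _ => ?_
    exact Pool.Agent.Y508.FP.Fn.hs_hull hK hne θ
  have h2 := Pool.Agent.Y508.FP.cro Pool.Agent.Y508.FP.poly γ (Pool.Agent.H741.EL.len γ).toReal
    ENNReal.toReal_nonneg hγ.cont hγ.closed (by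
      rw [ENNReal.ofReal_toReal htop]
      exact le_rfl)
  rw [h1, ← ENNReal.ofReal_toReal htop]
  exact ENNReal.ofReal_le_ofReal h2

end Pool.Agent.H52.EL.CRO
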